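import Pool.Agent.H902Z.BT.Hilb
import Pool.Agent.Helper741.GroupVN.Basic

set_option autoImplicit false

open scoped InnerProductSpace

namespace Pool.Agent.H902Z.BT

open Pool.Agent.Helper741.GroupVN

/-- combinatorial data -/
structure Data (Γ : Type) [Group Γ] where
  T : Finset Γ
  T_symm : ∀ s ∈ T, s⁻¹ ∈ T
  gen : Subgroup.closure (T : Set Γ) = ⊤
  α : Γ →* Equiv.Perm ℕ
  μ : Equiv.Perm ℕ
  μμ : ∀ x, μ (μ x) = x
  free1 : ∀ x, ∀ s ∈ T, α s x ≠ x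
  free : ∀ x, ∀ s ∈ T, ∀ t ∈ T, α s x = α t x → s = t
  sep : ∀ x g, μ x ≠ x → α g x ≠ μ x
  alm : ∀ g, g ≠ 1 → {x | μ x ≠ x ∧ μ (α g x) ≠ α g x}.Finite
  lab : ℕ → ℕ
  lab_fin : ∀ n, {x | lab x = n}.Finite
  lab_α : ∀ g x, lab (α g x) = lab x
  lab_μ : ∀ x, lab (μ x) = lab x
  big : ∀ M : ℕ, ∃ (O O' : Finset ℕ) (a : ℕ), M ≤ O.card ∧ O.card = O'.card ∧ Disjoint O O' ∧
    (∀ x, x ∈ O ↔ ∃ g, α g a = x) ∧ (∀ x, x ∈ O' ↔ ∃ g, α g (μ a) = x) ∧
    (∀ x ∈ O, x ≠ a → μ x = x) ∧ (∀ x ∈ O', x ≠ μ a → μ x = x)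

/-- operators on the sequence space -/
abbrev Op : Type := L2 ℕ →L[ℂ] L2 ℕ

/-- permutation operators -/
noncomputable def U (σ : Equiv.Perm ℕ) : Op := pop (fun _ => True) σ⁻¹

theorem U_apply (σ : Equiv.Perm ℕ) (ξ : L2 ℕ) (y : ℕ) : U σ ξ y = ξ (σ⁻¹ y) := by
  rw [U, pop_apply, if_pos trivial]

theorem U_mul (σ τ : Equiv.Perm ℕ) : U (σ * τ) = U σ * U τ := by
  ext ξ y
  rw [ContinuousLinearMap.mul_apply, U_apply, U_apply, U_apply, mul_inv_rev]
  rfl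

theorem U_one : U 1 = 1 := by
  ext ξ y
  rw [U_apply]
  rfl

theorem star_U (σ : Equiv.Perm ℕ) : star (U σ) = U σ⁻¹ := by
  rw [U, star_pop]
  rfl

/-- matrix entries -/
noncomputable def ent (A : Op) (y x : ℕ) : ℂ :=
  inner ℂ (lp.single 2 y (1 : ℂ) : lp (fun _ : ℕ => ℂ) 2) (A (lp.single 2 x (1 : ℂ)))

theorem ent_eq (A : Op) (y x : ℕ) : ent A y x = A (delta x) y := by
  rw [ent, lp.inner_single_left]
  simp [delta]

theorem ent_add (A B : Op) (y x : ℕ) : ent (A + B) y x = ent A y x + ent B y x := by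
  simp [ent_eq]

theorem ent_smul (a : ℂ) (B : Op) (y x : ℕ) : ent (a • B) y x = a * ent B y x := by
  simp [ent_eq]

theorem ent_sub (A B : Op) (y x : ℕ) : ent (A - B) y x = ent A y x - ent B y x := by
  simp [ent_eq]

theorem ent_pop (s : ℕ → Prop) [DecidablePred s] (σ : Equiv.Perm ℕ) (y x : ℕ) :
    ent (pop s σ) y x = if s y ∧ σ y = x then 1 else 0 := by
  rw [ent_eq, pop_apply, delta_apply]
  by_cases h1 : s y <;> by_cases h2 : σ y = x <;> simp [h1, h2]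

theorem ent_U (σ : Equiv.Perm ℕ) (y x : ℕ) : ent (U σ) y x = if y = σ x then 1 else 0 := by
  rw [U, ent_pop]
  simp only [true_and, Equiv.Perm.inv_eq_iff_eq]

theorem ent_one (y x : ℕ) : ent 1 y x = if y = x then 1 else 0 := by
  rw [← U_one, ent_U]
  rfl

theorem ent_sum {ι : Type} (s : Finset ι) (f : ι → Op) (y x : ℕ) :
    ent (∑ i ∈ s, f i) y x = ∑ i ∈ s, ent (f i) y x := by
  classical
  induction s using Finset.induction_on with
  | empty => simp [ent_eq]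
  | insert a s ha ih => rw [Finset.sum_insert ha, Finset.sum_insert ha, ent_add, ih]

variable {Γ : Type} [Group Γ] (D : Data Γ)

namespace Data

/-- the graph -/
def G : SimpleGraph ℕ where
  Adj x y := x ≠ y ∧ ((∃ s ∈ D.T, y = D.α s x) ∨ y = D.μ x)
  symm := ⟨by
    rintro x y ⟨h1, ⟨s, hs, rfl⟩ | rfl⟩
    · exact ⟨h1.symm, Or.inl ⟨s⁻¹, D.T_symm s hs, by simp⟩⟩
    · exact ⟨h1.symm, Or.inr (D.μμ x).symm⟩⟩
  loopless := ⟨fun x h => h.1 rfl⟩

/-- the Laplacian -/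
noncomputable def L : Op := ∑ s ∈ D.T, (1 - U (D.α s)) + (1 - U D.μ)

theorem μ_inv : D.μ⁻¹ = D.μ := by
  rw [inv_eq_iff_mul_eq_one]
  ext x
  simp [D.μμ]

/-- neighbours -/
noncomputable def nb (x : ℕ) : Finset ℕ :=
  D.T.image (fun s => D.α s x) ∪ (if D.μ x = x then ∅ else {D.μ x})

theorem nb_eq (x : ℕ) : D.G.neighborSet x = (D.nb x : Set ℕ) := by
  ext y
  simp only [SimpleGraph.mem_neighborSet, G, nb, Finset.coe_union, Finset.coe_image,
    Set.mem_union, Set.mem_image, Finset.mem_coe]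
  constructor
  · rintro ⟨h1, ⟨s, hs, rfl⟩ | rfl⟩
    · exact Or.inl ⟨s, hs, rfl⟩
    · right
      rw [if_neg h1.symm]
      simp
  · rintro (⟨s, hs, rfl⟩ | h)
    · exact ⟨(D.free1 x s hs).symm, Or.inl ⟨s, hs, rfl⟩⟩
    · split_ifs at h with h1
      · simp at h
      · rw [Finset.mem_singleton] at h
        subst h
        exact ⟨fun h => h1 h.symm, Or.inr rfl⟩

theorem nb_card (x : ℕ) : (D.nb x).card = D.T.card + (if D.μ x = x then 0 else 1) := by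
  rw [nb, Finset.card_union_of_disjoint, Finset.card_image_of_injOn]
  · split_ifs <;> simp
  · intro s hs t ht h
    exact D.free x s hs t ht h
  · split_ifs with h
    · simp
    · rw [Finset.disjoint_singleton_right, Finset.mem_image]
      rintro ⟨s, _, hs⟩
      exact D.sep x s h hs

theorem ent_L (y x : ℕ) : ent D.L y x =
    ∑ s ∈ D.T, ((if y = x then 1 else 0) - (if y = D.α s x then 1 else 0)) +
      ((if y = x then 1 else 0) - (if y = D.μ x then 1 else 0)) := by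
  simp only [L, ent_add, ent_sum, ent_sub, ent_one, ent_U]

theorem ent_diag (x : ℕ) : ent D.L x x = ((D.G.neighborSet x).ncard : ℂ) := by
  rw [ent_L, nb_eq, Set.ncard_coe_finset, nb_card,
    Finset.sum_congr rfl (g := fun _ => (1 : ℂ))]
  · by_cases h : D.μ x = x
    · simp [h]
    · have h' : ¬ x = D.μ x := fun h' => h h'.symm
      simp [h, h']
  · intro s hs
    simp [(D.free1 x s hs).symm]

theorem ent_adj (x y : ℕ) (h : D.G.Adj x y) : ent D.L y x = -1 := by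
  rw [ent_L]
  obtain ⟨h1, ⟨s, hs, rfl⟩ | rfl⟩ := h
  · have h2 : D.α s x ≠ D.μ x := by
      intro h2
      exact D.sep x s (fun h3 => h1 (h3.symm.trans h2.symm)) h2
    rw [Finset.sum_eq_single s]
    · simp [h1.symm, h2]
    · intro t ht hts
      have : D.α s x ≠ D.α t x := fun h => hts (D.free x s hs t ht h).symm
      simp [h1.symm, this]
    · intro h
      exact absurd hs h
  · rw [Finset.sum_eq_zero]
    · simp [h1.symm]
    · intro s _
      have := D.sep x s h1.symm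
      simp [h1.symm, this.symm]

theorem ent_nadj (x y : ℕ) (h1 : x ≠ y) (h : ¬ D.G.Adj x y) : ent D.L y x = 0 := by
  rw [ent_L]
  have h2 : y ≠ D.μ x := fun h2 => h ⟨h1, Or.inr h2⟩
  rw [Finset.sum_eq_zero]
  · simp [h1.symm, h2]
  · intro s hs
    have : y ≠ D.α s x := fun h2 => h ⟨h1, Or.inl ⟨s, hs, h2⟩⟩
    simp [h1.symm, this]

theorem reach_fin (x : ℕ) : {y : ℕ | D.G.Reachable x y}.Finite := by
  refine (D.lab_fin (D.lab x)).subset ?_
  rintro y ⟨w⟩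
  show D.lab y = D.lab x
  induction w with
  | nil => rfl
  | cons h _ ih =>
    rw [ih]
    obtain ⟨_, ⟨s, _, rfl⟩ | rfl⟩ := h
    · exact D.lab_α _ _
    · exact D.lab_μ _

/-- bounded displacement -/
def FP (σ : Equiv.Perm ℕ) : Prop := ∃ R : ℕ, ∀ x, D.G.edist x (σ x) ≤ (R : ℕ∞)

theorem FP_one : D.FP 1 := ⟨0, fun x => by simp⟩

theorem FP_mul {σ τ : Equiv.Perm ℕ} (h1 : D.FP σ) (h2 : D.FP τ) : D.FP (σ * τ) := by
  obtain ⟨R, hR⟩ := h1
  obtain ⟨R', hR'⟩ := h2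
  refine ⟨R' + R, fun x => ?_⟩
  push_cast
  exact le_trans (SimpleGraph.edist_triangle (v := τ x)) (add_le_add (hR' x) (hR (τ x)))

theorem FP_inv {σ : Equiv.Perm ℕ} (h1 : D.FP σ) : D.FP σ⁻¹ := by
  obtain ⟨R, hR⟩ := h1
  refine ⟨R, fun x => ?_⟩
  have := hR (σ⁻¹ x)
  rw [SimpleGraph.edist_comm]
  simpa using this

theorem FP_of_adj {σ : Equiv.Perm ℕ} (h : ∀ x, σ x ≠ x → D.G.Adj x (σ x)) : D.FP σ := by
  refine ⟨1, fun x => ?_⟩
  by_cases h1 : σ x = x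
  · simp [h1]
  · exact (SimpleGraph.edist_eq_one_iff_adj.2 (h x h1)).le

theorem FP_μ : D.FP D.μ := D.FP_of_adj fun _ h => ⟨h.symm, Or.inr rfl⟩

theorem FP_α (g : Γ) : D.FP (D.α g) := by
  have hg : g ∈ Subgroup.closure (D.T : Set Γ) := by rw [D.gen]; trivial
  induction hg using Subgroup.closure_induction with
  | mem s hs => exact D.FP_of_adj fun _ h => ⟨h.symm, Or.inl ⟨s, hs, rfl⟩⟩
  | one => rw [map_one]; exact D.FP_one
  | mul a b _ _ ha hb => rw [map_mul]; exact D.FP_mul ha hb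
  | inv a _ ha => rw [map_inv]; exact D.FP_inv ha

/-- finite propagation -/
def Fin' (A : Op) : Prop := ∃ R : ℕ, ∀ x y : ℕ, ent A y x ≠ 0 → D.G.edist x y ≤ (R : ℕ∞)

theorem Fin_pop (s : ℕ → Prop) [DecidablePred s] {σ : Equiv.Perm ℕ} (h : D.FP σ) :
    D.Fin' (pop s σ) := by
  obtain ⟨R, hR⟩ := h
  refine ⟨R, fun x y hxy => ?_⟩
  rw [ent_pop] at hxy
  split_ifs at hxy with h1
  · rw [← h1.2, SimpleGraph.edist_comm]
    exact hR y
  · exact absurd rfl hxy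

theorem Fin_U {σ : Equiv.Perm ℕ} (h : D.FP σ) : D.Fin' (U σ) := D.Fin_pop _ (D.FP_inv h)

theorem Fin_add {A B : Op} (hA : D.Fin' A) (hB : D.Fin' B) : D.Fin' (A + B) := by
  obtain ⟨R, hR⟩ := hA
  obtain ⟨R', hR'⟩ := hB
  refine ⟨R + R', fun x y hxy => ?_⟩
  rw [ent_add] at hxy
  push_cast
  by_cases h : ent A y x = 0
  · rw [h, zero_add] at hxy
    exact (hR' x y hxy).trans le_add_self
  · exact (hR x y h).trans le_self_add

theorem Fin_smul (a : ℂ) {B : Op} (hB : D.Fin' B) : D.Fin' (a • B) := by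
  obtain ⟨R, hR⟩ := hB
  refine ⟨R, fun x y hxy => hR x y ?_⟩
  rw [ent_smul] at hxy
  exact right_ne_zero_of_mul hxy

theorem Fin_one : D.Fin' 1 := U_one ▸ D.Fin_U D.FP_one

theorem Fin_zero : D.Fin' 0 := by
  have := D.Fin_smul 0 D.Fin_one
  rwa [zero_smul] at this

theorem Fin_sub {A B : Op} (hA : D.Fin' A) (hB : D.Fin' B) : D.Fin' (A - B) := by
  have := D.Fin_add hA (D.Fin_smul (-1) hB)
  rwa [neg_one_smul, ← sub_eq_add_neg] at this

theorem Fin_sum {ι : Type} (s : Finset ι) (f : ι → Op) (h : ∀ i ∈ s, D.Fin' (f i)) :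
    D.Fin' (∑ i ∈ s, f i) :=
  Finset.sum_induction f D.Fin' (fun _ _ => D.Fin_add) D.Fin_zero h

/-- the projection onto the marked points -/
noncomputable def chi : Op := pop (fun x => D.μ x ≠ x) 1

theorem chi_chi : D.chi * D.chi = D.chi := by
  ext ξ y
  simp only [chi, ContinuousLinearMap.mul_apply, pop_apply]
  split_ifs <;> simp_all

theorem star_chi : star D.chi = D.chi := by
  rw [chi, star_pop]
  rfl

theorem μ_chi : (1 - U D.μ) * D.chi = 1 - U D.μ := by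
  ext ξ y
  simp only [chi, ContinuousLinearMap.mul_apply, ContinuousLinearMap.sub_apply,
    ContinuousLinearMap.one_apply, lp.coeFn_sub, Pi.sub_apply, U_apply, pop_apply, μ_inv, D.μμ]
  by_cases h : D.μ y = y
  · simp [h]
  · have h' : ¬ y = D.μ y := fun h' => h h'.symm
    simp [h, h']

theorem U_chi (σ : Equiv.Perm ℕ) :
    U σ * D.chi = pop (fun y => D.μ (σ⁻¹ y) ≠ σ⁻¹ y) σ⁻¹ := by
  ext ξ y
  simp only [chi, ContinuousLinearMap.mul_apply, U_apply, pop_apply]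
  rfl

theorem chi_U_chi (σ : Equiv.Perm ℕ) :
    D.chi * (U σ * D.chi) = pop (fun y => D.μ y ≠ y ∧ D.μ (σ⁻¹ y) ≠ σ⁻¹ y) σ⁻¹ := by
  rw [U_chi]
  ext ξ y
  simp only [chi, ContinuousLinearMap.mul_apply, pop_apply]
  by_cases h1 : D.μ y = y <;> by_cases h2 : D.μ (σ⁻¹ y) = σ⁻¹ y <;> simp [h1, h2]

theorem ghost_pop (s : ℕ → Prop) [DecidablePred s] (σ : Equiv.Perm ℕ) (hs : {y | s y}.Finite)
    (ε : ℝ) (hε : 0 < ε) : ∃ F : Finset ℕ, ∀ x y : ℕ, x ∉ F → ‖ent (pop s σ) y x‖ < ε := by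
  refine ⟨hs.toFinset.image σ, fun x y hx => ?_⟩
  rw [ent_pop, if_neg]
  · simpa using hε
  · rintro ⟨h1, h2⟩
    exact hx (Finset.mem_image.2 ⟨y, hs.mem_toFinset.2 h1, h2⟩)

section rep

variable {H : Type} [NormedAddCommGroup H] [InnerProductSpace ℂ H] [CompleteSpace H]
  (π : Op → (H →L[ℂ] H))
  (h1 : ∀ S, D.Fin' S → ∀ T, D.Fin' T → π (S + T) = π S + π T ∧ π (S * T) = π S * π T)
  (h2 : ∀ a : ℂ, ∀ T, D.Fin' T → π (a • T) = a • π T)
  (h3 : ∀ T, D.Fin' T → π (star T) = star (π T))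
  (h4 : ∀ T, D.Fin' T → (∀ ε : ℝ, 0 < ε → ∃ F : Finset ℕ, ∀ x y : ℕ, x ∉ F → ‖ent T y x‖ < ε) →
    π T = 0)

/-- unitaries -/
noncomputable def W (σ : Equiv.Perm ℕ) : H →L[ℂ] H := π (U σ) + (1 - π 1)

include h1 in
theorem pi_one_mul {A : Op} (hA : D.Fin' A) : π 1 * π A = π A := by
  rw [← (h1 _ D.Fin_one _ hA).2, one_mul]

include h1 in
theorem pi_mul_one {A : Op} (hA : D.Fin' A) : π A * π 1 = π A := by
  rw [← (h1 _ hA _ D.Fin_one).2, mul_one]

include h1 in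
theorem W_mul {σ τ : Equiv.Perm ℕ} (hσ : D.FP σ) (hτ : D.FP τ) :
    W π (σ * τ) = W π σ * W π τ := by
  have a1 := D.pi_one_mul π h1 (D.Fin_U hτ)
  have a2 := D.pi_mul_one π h1 (D.Fin_U hσ)
  have a3 := D.pi_one_mul π h1 D.Fin_one
  simp only [W, U_mul, (h1 _ (D.Fin_U hσ) _ (D.Fin_U hτ)).2, add_mul, mul_add, sub_mul, mul_sub,
    a1, a2, a3, one_mul, mul_one]
  abel

theorem W_one : W π 1 = 1 := by
  rw [W, U_one]
  abel

include h3 in
theorem star_W {σ : Equiv.Perm ℕ} (hσ : D.FP σ) : star (W π σ) = W π σ⁻¹ := by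
  rw [W, W, star_add, star_sub, star_one, ← h3 _ (D.Fin_U hσ), ← h3 _ D.Fin_one, star_one, star_U]

include h1 h3 in
theorem norm_W {σ : Equiv.Perm ℕ} (hσ : D.FP σ) (v : H) : ‖W π σ v‖ = ‖v‖ := by
  refine ContinuousLinearMap.norm_map_of_mem_unitary ?_ v
  rw [Unitary.mem_iff, D.star_W π h3 hσ, ← D.W_mul π h1 (D.FP_inv hσ) hσ,
    ← D.W_mul π h1 hσ (D.FP_inv hσ)]
  simp [W_one]

include h1 h2 in
theorem pi_one_sub {σ : Equiv.Perm ℕ} (hσ : D.FP σ) : π (1 - U σ) = 1 - W π σ := by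
  have : (1 : Op) - U σ = 1 + (-1 : ℂ) • U σ := by rw [neg_one_smul, sub_eq_add_neg]
  rw [this, (h1 _ D.Fin_one _ (D.Fin_smul _ (D.Fin_U hσ))).1, h2 _ _ (D.Fin_U hσ), W,
    neg_one_smul]
  abel

include h1 h2 in
theorem pi_sum {ι : Type} (s : Finset ι) (f : ι → Op) (h : ∀ i ∈ s, D.Fin' (f i)) :
    π (∑ i ∈ s, f i) = ∑ i ∈ s, π (f i) := by
  classical
  induction s using Finset.induction_on with
  | empty =>
    have := h2 0 _ D.Fin_one
    simpa using this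
  | insert a s ha ih =>
    have hs : ∀ i ∈ s, D.Fin' (f i) := fun i hi => h i (Finset.mem_insert_of_mem hi)
    rw [Finset.sum_insert ha, Finset.sum_insert ha,
      (h1 _ (h a (Finset.mem_insert_self _ _)) _ (D.Fin_sum s f hs)).1, ih hs]

include h1 h2 in
theorem pi_L : π D.L = ∑ s ∈ D.T, (1 - W π (D.α s)) + (1 - W π D.μ) := by
  have hf : ∀ s ∈ D.T, D.Fin' (1 - U (D.α s)) :=
    fun s _ => D.Fin_sub D.Fin_one (D.Fin_U (D.FP_α s))
  rw [L, (h1 _ (D.Fin_sum _ _ hf) _ (D.Fin_sub D.Fin_one (D.Fin_U D.FP_μ))).1,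
    D.pi_sum π h1 h2 _ _ hf, D.pi_one_sub π h1 h2 D.FP_μ]
  congr 1
  exact Finset.sum_congr rfl fun s _ => D.pi_one_sub π h1 h2 (D.FP_α s)

/-- the representation of the group -/
noncomputable def rho' : Γ →* (H →L[ℂ] H) where
  toFun g := W π (D.α g)
  map_one' := by rw [map_one, W_one]
  map_mul' g h := by rw [map_mul, D.W_mul π h1 (D.FP_α g) (D.FP_α h)]

include h3 in
theorem star_rho' (g : Γ) : star (D.rho' π h1 g) = D.rho' π h1 g⁻¹ := by
  show star (W π (D.α g)) = W π (D.α g⁻¹)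
  rw [D.star_W π h3 (D.FP_α g), map_inv]

include h1 h2 h3 in
theorem pi_L_sa : IsSelfAdjoint (π D.L) := by
  rw [D.pi_L π h1 h2, IsSelfAdjoint, star_add, star_sum, star_sub, star_one,
    D.star_W π h3 D.FP_μ, μ_inv]
  congr 1
  refine Finset.sum_bij' (fun s _ => s⁻¹) (fun s _ => s⁻¹) (fun s hs => D.T_symm s hs)
    (fun s hs => D.T_symm s hs) (by simp) (by simp) (fun s _ => ?_)
  rw [star_sub, star_one, D.star_W π h3 (D.FP_α s), map_inv]

include h1 h2 h3 in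
theorem form_L (v : H) : (⟪π D.L v, v⟫_ℂ).re =
    ∑ s ∈ D.T, ‖W π (D.α s) v - v‖ ^ 2 / 2 + ‖W π D.μ v - v‖ ^ 2 / 2 := by
  rw [D.pi_L π h1 h2, ContinuousLinearMap.add_apply, inner_add_left, Complex.add_re,
    re_one_sub _ _ (D.norm_W π h1 h3 D.FP_μ v), ContinuousLinearMap.sum_apply, sum_inner,
    Complex.re_sum]
  congr 1
  exact Finset.sum_congr rfl fun s _ => re_one_sub _ _ (D.norm_W π h1 h3 (D.FP_α s) v)

include h3 h4 in
theorem chi_inv [Infinite Γ] (ξ : H) (hξ : ξ ∈ Inv (D.rho' π h1)) : π D.chi ξ = 0 := by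
  have hc : D.Fin' D.chi := D.Fin_pop _ D.FP_one
  have hsa : ∀ u v : H, ⟪π D.chi u, v⟫_ℂ = ⟪u, π D.chi v⟫_ℂ := by
    intro u v
    rw [← ContinuousLinearMap.adjoint_inner_right, ← ContinuousLinearMap.star_eq_adjoint,
      ← h3 _ hc, star_chi]
  have hcc : π D.chi (π D.chi ξ) = π D.chi ξ := by
    rw [← ContinuousLinearMap.mul_apply, ← (h1 _ hc _ hc).2, chi_chi]
  refine orth_zero (D.rho' π h1) (D.star_rho' π h1 h3) ξ _ hξ ?_ ?_
  · rw [hsa, hsa, hcc]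
  · intro g hg
    have hu := D.Fin_U (D.FP_α g)
    have huc : D.Fin' (U (D.α g) * D.chi) := by
      rw [U_chi]
      exact D.Fin_pop _ (D.FP_inv (D.FP_α g))
    have hz : π (D.chi * (U (D.α g) * D.chi)) = 0 := by
      rw [chi_U_chi]
      refine h4 _ (D.Fin_pop _ (D.FP_inv (D.FP_α g))) (ghost_pop _ _ ?_)
      have := D.alm g⁻¹ (inv_ne_one.2 hg)
      rwa [map_inv] at this
    rw [(h1 _ hc _ huc).2, (h1 _ hu _ hc).2] at hz
    have e : π D.chi * (D.rho' π h1 g * π D.chi) = 0 := by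
      show π D.chi * ((π (U (D.α g)) + (1 - π 1)) * π D.chi) = 0
      rw [add_mul, sub_mul, one_mul, D.pi_one_mul π h1 hc, sub_self, add_zero, hz]
    rw [hsa]
    have := congrArg (fun T : H →L[ℂ] H => T ξ) e
    simp only [ContinuousLinearMap.mul_apply, ContinuousLinearMap.zero_apply] at this
    rw [this, inner_zero_right]

include h1 h2 h3 h4 in
theorem gap [Infinite Γ] (S : Finset Γ) (ε : ℝ) (hε : 0 < ε) (hS : ∀ s ∈ S, s ≠ 1 → s ∈ D.T)
    (hT : ∀ (E : Type) [NormedAddCommGroup E] [InnerProductSpace ℂ E] [CompleteSpace E]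
        (π : Γ →* (E →L[ℂ] E)),
        (∀ g : Γ, π g ∈ unitary (E →L[ℂ] E)) →
        (∃ v : E, ‖v‖ = 1 ∧ ∀ s ∈ S, ‖(π s) v - v‖ < ε) →
        ∃ w : E, w ≠ 0 ∧ ∀ g : Γ, (π g) w = w) :
    spectrum ℂ (π D.L) ⊆ {z : ℂ | z = 0 ∨ (z.im = 0 ∧ ε ^ 2 / 2 ≤ z.re)} := by
  refine gap_of_coercive (Inv (D.rho' π h1)) (Inv_closed _) _ (D.pi_L_sa π h1 h2 h3) _
    (by positivity) ?_ ?_
  · intro v hv
    have hc : D.Fin' D.chi := D.Fin_pop _ D.FP_one
    have e1 : (1 - W π D.μ) v = 0 := by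
      rw [← D.pi_one_sub π h1 h2 D.FP_μ, ← μ_chi,
        (h1 _ (D.Fin_sub D.Fin_one (D.Fin_U D.FP_μ)) _ hc).2, ContinuousLinearMap.mul_apply,
        D.chi_inv π h1 h3 h4 v hv, map_zero]
    rw [D.pi_L π h1 h2, ContinuousLinearMap.add_apply, e1, add_zero,
      ContinuousLinearMap.sum_apply]
    refine Finset.sum_eq_zero fun s _ => ?_
    have : W π (D.α s) v = v := hv s
    simp [this]
  · intro v hv
    by_cases hv0 : v = 0
    · simp [hv0]
    obtain ⟨s, hs, hle⟩ := kazhdan_ineq S ε hT (D.rho' π h1) (D.star_rho' π h1 h3) v hv hv0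
    have hn : 0 < ‖v‖ := norm_pos_iff.2 hv0
    have hs1 : s ≠ 1 := by
      rintro rfl
      rw [map_one, ContinuousLinearMap.one_apply, sub_self, norm_zero] at hle
      nlinarith
    rw [D.form_L π h1 h2 h3]
    have a1 : ‖W π (D.α s) v - v‖ ^ 2 / 2 ≤ ∑ s ∈ D.T, ‖W π (D.α s) v - v‖ ^ 2 / 2 :=
      Finset.single_le_sum (f := fun s => ‖W π (D.α s) v - v‖ ^ 2 / 2)
        (fun _ _ => by positivity) (hS s hs hs1)
    have a2 : (ε * ‖v‖) ^ 2 ≤ ‖W π (D.α s) v - v‖ ^ 2 :=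
      pow_le_pow_left₀ (by positivity) hle 2
    have a3 : 0 ≤ ‖W π D.μ v - v‖ ^ 2 / 2 := by positivity
    nlinarith

end rep

end Data

end Pool.Agent.H902Z.BT
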