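import Pool.Agent.H902Z.BT.NonExp
import Pool.Agent.H304Z.SL3
import Pool.Agent.H304Z.Pair

set_option autoImplicit false

namespace Pool.Agent.H902Z.BT

theorem exists_data {Γ : Type} [Group Γ] [Infinite Γ] (T : Finset Γ) (hT : ∀ s ∈ T, s⁻¹ ∈ T)
    (h1 : (1 : Γ) ∉ T) (hgen : Subgroup.closure (T : Set Γ) = ⊤) (N : ℕ → Subgroup Γ)
    (hN : ∀ n, (N n).Normal) (hfin : ∀ n, (N n).FiniteIndex)
    (hres : ∀ g, g ≠ 1 → ∀ᶠ n in Filter.atTop, g ∉ N n) : ∃ D : Data Γ, D.T = T := by
  classical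
  have hset : ∀ F : Finset Γ, ∀ᶠ n in Filter.atTop,
      ∀ s ∈ F, ∀ t ∈ F, (s : Γ ⧸ N n) = t → s = t := by
    intro F
    rw [Filter.eventually_all_finset]
    intro s _
    rw [Filter.eventually_all_finset]
    intro t _
    by_cases hst : s = t
    · exact Filter.Eventually.of_forall fun _ _ => hst
    · filter_upwards [hres (s⁻¹ * t) (fun h => hst (inv_mul_eq_one.1 h))] with n hn h
      exact absurd (QuotientGroup.eq.1 h) hn
  obtain ⟨n0, hn0⟩ := Filter.eventually_atTop.1 (hset (insert 1 T))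
  let Q : ℕ → Type := fun n => Γ ⧸ N (n + n0)
  haveI hfq : ∀ n, Finite (Q n) := fun n => inferInstanceAs (Finite (Γ ⧸ N (n + n0)))
  let X : Type := Σ n : ℕ, Bool × Q n
  haveI : Countable X := inferInstance
  haveI : Infinite X := Infinite.of_injective (fun n : ℕ => (⟨n, (true, (1 : Γ ⧸ N (n + n0)))⟩ : X))
    (fun a b h => congrArg Sigma.fst h)
  obtain ⟨dn⟩ := nonempty_denumerable X
  let e : X ≃ ℕ := Denumerable.eqv X
  have mkinj : ∀ (n : ℕ) (b b' : Bool) (q q' : Γ ⧸ N (n + n0)),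
      (⟨n, (b, q)⟩ : X) = ⟨n, (b', q')⟩ ↔ b = b' ∧ q = q' := by
    intro n b b' q q'
    constructor
    · intro h
      have := sigma_mk_injective (β := fun n => Bool × Q n) h
      exact Prod.mk.inj this
    · rintro ⟨rfl, rfl⟩
      rfl
  let act : Γ → X → X := fun g x => ⟨x.1, (x.2.1, (g : Γ ⧸ N (x.1 + n0)) * x.2.2)⟩
  have act_one : ∀ x, act 1 x = x := by
    rintro ⟨n, b, q⟩
    simp [act]
  have act_mul : ∀ g h x, act (g * h) x = act g (act h x) := by
    rintro g h ⟨n, b, q⟩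
    simp [act, mul_assoc]
  let sw : X → X := fun x => ⟨x.1, (if x.2.2 = (1 : Γ ⧸ N (x.1 + n0)) then !x.2.1 else x.2.1, x.2.2)⟩
  have sw_sw : ∀ x, sw (sw x) = x := by
    rintro ⟨n, b, q⟩
    by_cases h : q = (1 : Γ ⧸ N (n + n0)) <;> simp [sw, h]
  have sw_ne : ∀ (n : ℕ) (b : Bool) (q : Γ ⧸ N (n + n0)),
      sw ⟨n, (b, q)⟩ ≠ ⟨n, (b, q)⟩ ↔ q = 1 := by
    intro n b q
    by_cases h : q = (1 : Γ ⧸ N (n + n0)) <;> simp [sw, h, mkinj]
  let α : Γ →* Equiv.Perm ℕ :=
    { toFun := fun g =>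
        { toFun := fun k => e (act g (e.symm k))
          invFun := fun k => e (act g⁻¹ (e.symm k))
          left_inv := fun k => by simp [← act_mul, act_one]
          right_inv := fun k => by simp [← act_mul, act_one] }
      map_one' := by
        ext k
        simp [act_one]
      map_mul' := fun g h => by
        ext k
        simp [act_mul] }
  have hα : ∀ g x, α g (e x) = e (act g x) := fun g x => by simp [α]
  let μ : Equiv.Perm ℕ :=
    { toFun := fun k => e (sw (e.symm k))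
      invFun := fun k => e (sw (e.symm k))
      left_inv := fun k => by simp [sw_sw]
      right_inv := fun k => by simp [sw_sw] }
  have hμ : ∀ x, μ (e x) = e (sw x) := fun x => by simp [μ]
  have hlev : ∀ n, {k : ℕ | (e.symm k).1 = n}.Finite := by
    intro n
    refine (Set.finite_range (fun p : Bool × Q n => e ⟨n, p⟩)).subset ?_
    intro k hk
    obtain ⟨⟨m, p⟩, rfl⟩ := e.surjective k
    simp only [Set.mem_setOf_eq, Equiv.symm_apply_apply] at hk
    subst hk
    exact ⟨p, rfl⟩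
  have hfree : ∀ x, ∀ s ∈ insert 1 T, ∀ t ∈ insert 1 T, α s x = α t x → s = t := by
    intro x s hs t ht h
    obtain ⟨⟨n, b, q⟩, rfl⟩ := e.surjective x
    rw [hα, hα, e.apply_eq_iff_eq] at h
    exact hn0 (n + n0) (by omega) s hs t ht (mul_right_cancel ((mkinj _ _ _ _ _).1 h).2)
  refine ⟨{
    T := T
    T_symm := hT
    gen := hgen
    α := α
    μ := μ
    μμ := fun x => by simp [μ, sw_sw]
    free1 := fun x s hs h => h1 (by
      have := hfree x s (Finset.mem_insert_of_mem hs) 1 (Finset.mem_insert_self _ _) (by simpa)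
      exact this ▸ hs)
    free := fun x s hs t ht h =>
      hfree x s (Finset.mem_insert_of_mem hs) t (Finset.mem_insert_of_mem ht) h
    sep := ?_
    alm := ?_
    lab := fun k => (e.symm k).1
    lab_fin := hlev
    lab_α := fun g x => by simp [α, act]
    lab_μ := fun x => by simp [μ, sw]
    big := ?_ }, rfl⟩
  · intro x g h h'
    obtain ⟨⟨n, b, q⟩, rfl⟩ := e.surjective x
    rw [hμ, Ne, e.apply_eq_iff_eq, ← Ne, sw_ne] at h
    rw [hα, hμ, e.apply_eq_iff_eq] at h'
    simp [act, sw, h, mkinj] at h'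
  · intro g hg
    obtain ⟨m, hm⟩ := Filter.eventually_atTop.1 (hres g hg)
    refine (Set.Finite.biUnion (Set.finite_lt_nat m) (fun n _ => hlev n)).subset ?_
    rintro x ⟨h, h'⟩
    obtain ⟨⟨n, b, q⟩, rfl⟩ := e.surjective x
    rw [hμ, Ne, e.apply_eq_iff_eq, ← Ne, sw_ne] at h
    rw [hα, hμ, Ne, e.apply_eq_iff_eq, ← Ne] at h'
    have h'' := (sw_ne n b _).1 h'
    subst h
    simp only [mul_one, QuotientGroup.eq_one_iff] at h''
    simp only [Set.mem_iUnion, Set.mem_setOf_eq, Equiv.symm_apply_apply, exists_prop,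
      exists_eq_right']
    by_contra hc
    exact hm (n + n0) (by omega) h''
  · intro M
    obtain ⟨F, hF⟩ := Infinite.exists_subset_card_eq Γ M
    obtain ⟨n, hn⟩ := Filter.eventually_atTop.1 (hset F)
    haveI : Fintype (Γ ⧸ N (n + n0)) := Fintype.ofFinite (Q n)
    have hinj : ∀ b : Bool,
        Function.Injective (fun q : Γ ⧸ N (n + n0) => e (⟨n, (b, q)⟩ : X)) := by
      intro b q q' h
      simpa [mkinj] using h
    have hsw : sw ⟨n, (true, (1 : Γ ⧸ N (n + n0)))⟩ = ⟨n, (false, (1 : Γ ⧸ N (n + n0)))⟩ := by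
      simp [sw]
    have hmem : ∀ (b : Bool) (x : ℕ),
        x ∈ Finset.univ.image (fun q : Γ ⧸ N (n + n0) => e (⟨n, (b, q)⟩ : X)) ↔
          ∃ g, α g (e ⟨n, (b, (1 : Γ ⧸ N (n + n0)))⟩) = x := by
      intro b x
      simp only [Finset.mem_image, Finset.mem_univ, true_and, hα, act, mul_one]
      constructor
      · rintro ⟨q, rfl⟩
        obtain ⟨g, rfl⟩ := QuotientGroup.mk_surjective q
        exact ⟨g, rfl⟩
      · rintro ⟨g, rfl⟩
        exact ⟨g, rfl⟩
    have hfix : ∀ (b : Bool), ∀ x ∈ Finset.univ.image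
        (fun q : Γ ⧸ N (n + n0) => e (⟨n, (b, q)⟩ : X)),
        x ≠ e ⟨n, (b, (1 : Γ ⧸ N (n + n0)))⟩ → μ x = x := by
      intro b x hx hne
      obtain ⟨q, _, rfl⟩ := Finset.mem_image.1 hx
      by_contra hc
      rw [hμ, e.apply_eq_iff_eq, ← Ne, sw_ne] at hc
      exact hne (by rw [hc])
    refine ⟨Finset.univ.image (fun q : Γ ⧸ N (n + n0) => e (⟨n, (true, q)⟩ : X)),
      Finset.univ.image (fun q : Γ ⧸ N (n + n0) => e (⟨n, (false, q)⟩ : X)),
      e ⟨n, (true, (1 : Γ ⧸ N (n + n0)))⟩, ?_, ?_, ?_, hmem true, ?_, hfix true, ?_⟩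
    · rw [Finset.card_image_of_injective _ (hinj true), ← hF]
      refine Finset.card_le_card_of_injOn (fun g => (g : Γ ⧸ N (n + n0))) (by simp) ?_
      intro s hs t ht h
      exact hn (n + n0) (by omega) s hs t ht h
    · rw [Finset.card_image_of_injective _ (hinj true),
        Finset.card_image_of_injective _ (hinj false)]
    · rw [Finset.disjoint_left]
      intro x hx hx'
      obtain ⟨q, _, rfl⟩ := Finset.mem_image.1 hx
      obtain ⟨q', _, h⟩ := Finset.mem_image.1 hx'
      simp [mkinj] at h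
    · rw [hμ, hsw]
      exact hmem false
    · rw [hμ, hsw]
      exact hfix false

open Pool.Agent.H304Z Matrix Polynomial

variable {F : Type} [Field F]

/-- the four lines inside the elementary group -/
noncomputable def gG (i : Fin 4) (a : F) : Gam F := ⟨gl i a, gl_mem i a⟩

theorem tG_add {i j : Fin 3} (h : i ≠ j) (r s : F[X]) : tG h (r + s) = tG h r * tG h s :=
  Subtype.ext (tv_add h r s)

theorem tG_comm {i j k l : Fin 3} (hij : i ≠ j) (hkl : k ≠ l) (h1 : j ≠ k) (h2 : l ≠ i)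
    (r s : F[X]) : tG hij r * tG hkl s = tG hkl s * tG hij r :=
  Subtype.ext (tv_comm hij hkl h1 h2 r s)

theorem tG_heis {i j k : Fin 3} (hij : i ≠ j) (hjk : j ≠ k) (hik : i ≠ k) (r s : F[X]) :
    tG hij r * tG hjk s = tG hjk s * (tG hij r * tG hik (r * s)) :=
  Subtype.ext (tv_heis hij hjk hik r s)

theorem tG_pair {i j k : Fin 3} (hij : i ≠ j) (hjk : j ≠ k) (hik : i ≠ k) (p q : F[X]) :
    HP2 (fun a : F => tG hij (C a * p)) (fun a : F => tG hjk (C a * q)) := by
  refine HP2.of_heis (fun c : F => tG hik (C c * (p * q))) ?_ ?_ ?_ ?_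
  · intro c d
    rw [map_add, add_mul, tG_add]
  · intro a b
    have e : C (a * b) * (p * q) = C a * p * (C b * q) := by rw [map_mul]; ring
    rw [tG_heis hij hjk hik, e]
  · intro c b
    exact tG_comm hik hij hik.symm hij.symm _ _
  · intro c b
    exact tG_comm hik hjk hjk.symm hik.symm _ _

theorem gG_add (i : Fin 4) (a b : F) : gG i (a + b) = gG i a * gG i b := by
  fin_cases i
  · show tG n01 (C (a + b)) = tG n01 (C a) * tG n01 (C b)
    rw [map_add, tG_add]
  · show tG n01 (C (a + b) * X) = tG n01 (C a * X) * tG n01 (C b * X)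
    rw [map_add, add_mul, tG_add]
  · show tG n12 (C (a + b)) = tG n12 (C a) * tG n12 (C b)
    rw [map_add, tG_add]
  · show tG n20 (C (a + b)) = tG n20 (C a) * tG n20 (C b)
    rw [map_add, tG_add]

theorem p01 : HP2 (gG 0 : F → Gam F) (gG 1) :=
  HP2.of_comm fun _ _ => tG_comm n01 n01 n10 n10 _ _

theorem p02 : HP2 (gG 0 : F → Gam F) (gG 2) := by
  have := tG_pair (F := F) n01 n12 n02 1 1
  simp only [mul_one] at this
  exact this

theorem p12 : HP2 (gG 1 : F → Gam F) (gG 2) := by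
  have := tG_pair (F := F) n01 n12 n02 X 1
  simp only [mul_one] at this
  exact this

theorem p23 : HP2 (gG 2 : F → Gam F) (gG 3) := by
  have := tG_pair (F := F) n12 n20 n10 1 1
  simp only [mul_one] at this
  exact this

theorem p30 : HP2 (gG 3 : F → Gam F) (gG 0) := by
  have := tG_pair (F := F) n20 n01 n21 1 1
  simp only [mul_one] at this
  exact this

theorem p31 : HP2 (gG 3 : F → Gam F) (gG 1) := by
  have := tG_pair (F := F) n20 n01 n21 1 X
  simp only [mul_one] at this
  exact this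

theorem gG_pair (i j : Fin 4) (hij : i ≠ j) :
    HP2 (gG i : F → Gam F) (gG j) ∨ HP2 (gG j : F → Gam F) (gG i) := by
  fin_cases i <;> fin_cases j
  · exact absurd rfl hij
  · exact Or.inl p01
  · exact Or.inl p02
  · exact Or.inr p30
  · exact Or.inr p01
  · exact absurd rfl hij
  · exact Or.inl p12
  · exact Or.inr p31
  · exact Or.inr p02
  · exact Or.inr p12
  · exact absurd rfl hij
  · exact Or.inl p23
  · exact Or.inl p30
  · exact Or.inl p31
  · exact Or.inr p23
  · exact absurd rfl hij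

theorem gG_gen : Subgroup.closure {g : Gam F | ∃ i t, g = gG i t} = ⊤ := by
  have := Subgroup.closure_preimage_eq_top {g : SL3 F | ∃ i a, g = gl i a}
  refine Eq.trans ?_ this
  congr 1
  ext g
  simp only [Set.mem_setOf_eq, Set.mem_preimage, Subgroup.coe_subtype]
  constructor
  · rintro ⟨i, t, rfl⟩
    exact ⟨i, t, rfl⟩
  · rintro ⟨i, t, h⟩
    exact ⟨i, t, Subtype.ext h⟩

instance : Infinite (Gam F) := Infinite.of_injective (fun r : F[X] => tG n01 r) (by
  intro r s h
  have h1 : (tv n01 r).1 0 1 = (tv n01 s).1 0 1 := by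
    have : tv n01 r = tv n01 s := congrArg Subtype.val h
    rw [this]
  simpa [tv_coe] using h1)

/-- congruence subgroups -/
noncomputable def red (n : ℕ) :
    Gam F →* Matrix.SpecialLinearGroup (Fin 3) (AdjoinRoot (X ^ n : F[X])) :=
  (Matrix.SpecialLinearGroup.map (AdjoinRoot.mk (X ^ n : F[X]))).comp (Gam F).subtype

theorem red_fin [Finite F] (n : ℕ) : (red (F := F) n).ker.FiniteIndex := by
  haveI : Module.Finite F (AdjoinRoot (X ^ n : F[X])) :=
    (AdjoinRoot.powerBasis' (monic_X_pow n)).finite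
  haveI : Finite (AdjoinRoot (X ^ n : F[X])) := Module.finite_of_finite F
  haveI : Finite (Matrix.SpecialLinearGroup (Fin 3) (AdjoinRoot (X ^ n : F[X]))) :=
    inferInstanceAs (Finite {A : Matrix (Fin 3) (Fin 3) (AdjoinRoot (X ^ n : F[X])) // A.det = 1})
  infer_instance

theorem red_res (g : Gam F) (hg : g ≠ 1) : ∀ᶠ n in Filter.atTop, g ∉ (red (F := F) n).ker := by
  have : ∃ i j, g.1.1 i j - (1 : Matrix (Fin 3) (Fin 3) F[X]) i j ≠ 0 := by
    by_contra hc
    push Not at hc
    apply hg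
    apply Subtype.ext
    apply Subtype.ext
    ext1 i j
    exact sub_eq_zero.1 (hc i j)
  obtain ⟨i, j, hij⟩ := this
  filter_upwards [Filter.eventually_gt_atTop
    (g.1.1 i j - (1 : Matrix (Fin 3) (Fin 3) F[X]) i j).natDegree] with n hn hmem
  rw [MonoidHom.mem_ker] at hmem
  have h1 : AdjoinRoot.mk (X ^ n : F[X]) (g.1.1 i j) =
      (1 : Matrix (Fin 3) (Fin 3) (AdjoinRoot (X ^ n : F[X]))) i j := by
    have := congrArg (fun A : Matrix.SpecialLinearGroup (Fin 3) (AdjoinRoot (X ^ n : F[X])) =>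
      A.1 i j) hmem
    exact this
  have h2 : AdjoinRoot.mk (X ^ n : F[X])
      (g.1.1 i j - (1 : Matrix (Fin 3) (Fin 3) F[X]) i j) = 0 := by
    rw [map_sub, h1, sub_eq_zero, Matrix.one_apply, Matrix.one_apply]
    split_ifs <;> simp
  rw [AdjoinRoot.mk_eq_zero] at h2
  have := natDegree_le_of_dvd h2 hij
  rw [natDegree_X_pow] at this
  omega

theorem exists_all : ∃ (Γ : Type) (_ : Group Γ) (_ : Infinite Γ) (D : Data Γ) (S : Finset Γ)
    (ε : ℝ), 0 < ε ∧ (∀ s ∈ S, s ≠ 1 → s ∈ D.T) ∧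
      ∀ (E : Type) [NormedAddCommGroup E] [InnerProductSpace ℂ E] [CompleteSpace E]
        (π : Γ →* (E →L[ℂ] E)),
        (∀ g : Γ, π g ∈ unitary (E →L[ℂ] E)) →
        (∃ v : E, ‖v‖ = 1 ∧ ∀ s ∈ S, ‖(π s) v - v‖ < ε) →
        ∃ w : E, w ≠ 0 ∧ ∀ g : Γ, (π g) w = w := by
  classical
  let F := GaloisField 2 9
  haveI : Fintype F := Fintype.ofFinite _
  have hc : 512 ≤ Fintype.card F := by
    rw [← Nat.card_eq_fintype_card, GaloisField.card 2 9 (by norm_num)]
    norm_num
  obtain ⟨S, ε, hε, hS⟩ := propT_lines2 (Γ := Gam F) hc (n := 4) (by norm_num) (by norm_num)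
    gG gG_add gG_pair gG_gen
  let S1 : Finset (Gam F) := S ∪ Finset.univ.image (fun q : Fin 4 × F => gG q.1 q.2)
  let T : Finset (Gam F) := (S1 ∪ S1.image (fun s => s⁻¹)).erase 1
  have hT1 : ∀ s ∈ S1, s ≠ 1 → s ∈ T := fun s hs h1 =>
    Finset.mem_erase.2 ⟨h1, Finset.mem_union_left _ hs⟩
  obtain ⟨D, hD⟩ := exists_data T
    (by
      intro s hs
      obtain ⟨h1, h2⟩ := Finset.mem_erase.1 hs
      refine Finset.mem_erase.2 ⟨inv_ne_one.2 h1, ?_⟩
      rcases Finset.mem_union.1 h2 with h | h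
      · exact Finset.mem_union_right _ (Finset.mem_image_of_mem _ h)
      · obtain ⟨t, ht, rfl⟩ := Finset.mem_image.1 h
        exact Finset.mem_union_left _ (by simpa using ht))
    (Finset.notMem_erase _ _)
    (by
      rw [eq_top_iff, ← gG_gen, Subgroup.closure_le]
      rintro g ⟨i, t, rfl⟩
      by_cases h1 : gG i t = 1
      · rw [h1]
        exact one_mem _
      · exact Subgroup.subset_closure (hT1 _ (Finset.mem_union_right _
          (Finset.mem_image.2 ⟨(i, t), Finset.mem_univ _, rfl⟩)) h1))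
    (fun n => (red (F := F) n).ker) (fun _ => inferInstance) red_fin red_res
  exact ⟨Gam F, inferInstance, inferInstance, D, S, ε, hε,
    fun s hs h1 => hD ▸ hT1 s (Finset.mem_union_left _ hs) h1, hS⟩

end Pool.Agent.H902Z.BT
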