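import Mathlib

set_option autoImplicit false

open scoped InnerProductSpace

namespace Pool.Agent.H902Z.BT

variable {H : Type} [NormedAddCommGroup H] [InnerProductSpace ℂ H] [CompleteSpace H]

theorem gap_of_coercive (K : Submodule ℂ H) (hK : IsClosed (K : Set H)) (A : H →L[ℂ] H)
    (hA : IsSelfAdjoint A) (c : ℝ) (hc : 0 < c) (h0 : ∀ v ∈ K, A v = 0)
    (h1 : ∀ v ∈ Kᗮ, c * ‖v‖ ^ 2 ≤ (⟪A v, v⟫_ℂ).re) :
    spectrum ℂ A ⊆ {z : ℂ | z = 0 ∨ (z.im = 0 ∧ c ≤ z.re)} := by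
  haveI : CompleteSpace K := hK.completeSpace_coe
  intro z hz
  have him := hA.im_eq_zero_of_mem_spectrum hz
  by_contra hcon
  simp only [Set.mem_setOf_eq, not_or, not_and, not_le] at hcon
  obtain ⟨hz0, hz1⟩ := hcon
  have hr := hz1 him
  obtain ⟨r, rfl⟩ : ∃ r : ℝ, z = r := ⟨z.re, by apply Complex.ext <;> simp [him]⟩
  simp only [Complex.ofReal_re] at hr
  have hr0 : (r : ℂ) ≠ 0 := hz0
  set p : H →L[ℂ] H := K.starProjection with hp
  have hpp : p * p = p := by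
    ext v
    exact Submodule.starProjection_eq_self_iff.2 (K.starProjection_apply_mem v)
  have hAp : A * p = 0 := by
    ext v
    exact h0 _ (K.starProjection_apply_mem v)
  set B : H →L[ℂ] H := A + (c : ℂ) • p - (r : ℂ) • 1 with hB
  have hBu : IsUnit B := by
    refine ContinuousLinearMap.isUnit_of_forall_le_norm_inner_map B (c := ⟨c - r, by linarith⟩)
      (by show (0 : ℝ) < c - r; linarith) (fun v => ?_)
    have hw : v - p v ∈ Kᗮ := K.sub_starProjection_mem_orthogonal v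
    have hpv : p v ∈ K := K.starProjection_apply_mem v
    have e1 : ⟪A v, v⟫_ℂ = ⟪A (v - p v), v - p v⟫_ℂ := by
      have a1 : A (v - p v) = A v := by rw [map_sub, h0 _ hpv, sub_zero]
      have a2 : ⟪A v, p v⟫_ℂ = 0 := by
        rw [← ContinuousLinearMap.adjoint_inner_right, ← ContinuousLinearMap.star_eq_adjoint,
          hA.star_eq, h0 _ hpv, inner_zero_right]
      rw [a1, inner_sub_right, a2, sub_zero]
    have e0 : ⟪p v, v - p v⟫_ℂ = 0 := Submodule.inner_right_of_mem_orthogonal hpv hw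
    have e2 : (⟪p v, v⟫_ℂ).re = ‖p v‖ ^ 2 := by
      have : ⟪p v, v⟫_ℂ = ⟪p v, p v⟫_ℂ := by
        rw [inner_sub_right, sub_eq_zero] at e0
        exact e0
      rw [this, inner_self_eq_norm_sq_to_K]
      norm_cast
    have e3 : ‖v‖ ^ 2 = ‖p v‖ ^ 2 + ‖v - p v‖ ^ 2 := by
      have := norm_add_sq_eq_norm_sq_add_norm_sq_of_inner_eq_zero (𝕜 := ℂ) _ _ e0
      rw [add_sub_cancel] at this
      nlinarith
    have e4 : (⟪v, v⟫_ℂ).re = ‖v‖ ^ 2 := by
      rw [inner_self_eq_norm_sq_to_K]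
      norm_cast
    have e5 : (⟪B v, v⟫_ℂ).re = (⟪A v, v⟫_ℂ).re + c * (⟪p v, v⟫_ℂ).re - r * (⟪v, v⟫_ℂ).re := by
      simp only [hB, ContinuousLinearMap.sub_apply, ContinuousLinearMap.add_apply,
        ContinuousLinearMap.smul_apply, ContinuousLinearMap.one_apply, inner_sub_left,
        inner_add_left, inner_smul_left, Complex.conj_ofReal, Complex.sub_re, Complex.add_re,
        Complex.re_ofReal_mul]
    have e6 := h1 _ hw
    rw [← e1] at e6
    refine le_trans ?_ (Complex.re_le_norm _)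
    show ‖v‖ ^ 2 * (c - r) ≤ _
    rw [e5, e2, e4]
    nlinarith
  have hcr : (c : ℂ) - r ≠ 0 := by
    have : c - r ≠ 0 := by linarith
    exact_mod_cast this
  set k : ℂ := -c / (c - r) with hk
  set k' : ℂ := -c / r with hk'
  have hkk : k + k' + k * k' = 0 := by
    rw [hk, hk']
    field_simp
    ring
  have hinv1 : (1 + k • p) * (1 + k' • p) = 1 := by
    rw [add_mul, mul_add, mul_add, one_mul, one_mul, mul_one, smul_mul_smul_comm, hpp, add_assoc,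
      ← add_smul, ← add_smul]
    have : k' + (k + k * k') = 0 := by linear_combination hkk
    rw [this, zero_smul, add_zero]
  have hinv2 : (1 + k' • p) * (1 + k • p) = 1 := by
    rw [add_mul, mul_add, mul_add, one_mul, one_mul, mul_one, smul_mul_smul_comm, hpp, add_assoc,
      ← add_smul, ← add_smul]
    have : k + (k' + k' * k) = 0 := by linear_combination hkk
    rw [this, zero_smul, add_zero]
  have hu2 : IsUnit (1 + k • p) := ⟨⟨_, _, hinv1, hinv2⟩, rfl⟩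
  have hfac : B * (1 + k • p) = A - (r : ℂ) • 1 := by
    have hBp : B * p = ((c : ℂ) - r) • p := by
      rw [hB, sub_mul, add_mul, hAp, smul_mul_assoc, hpp, smul_mul_assoc, one_mul, zero_add,
        sub_smul]
    have hkc : k * (c - r) = -c := by
      rw [hk]
      field_simp
    rw [mul_add, mul_one, mul_smul_comm, hBp, smul_smul, hkc, hB, neg_smul]
    abel
  have hu : IsUnit (A - (r : ℂ) • 1) := hfac ▸ hBu.mul hu2
  rw [spectrum.mem_iff] at hz
  apply hz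
  rw [Algebra.algebraMap_eq_smul_one, ← neg_sub]
  exact hu.neg

theorem coercive_of_gap (A : H →L[ℂ] H) (hA : IsSelfAdjoint A) (c : ℝ) (hc : 0 < c)
    (h : spectrum ℂ A ⊆ {z : ℂ | z = 0 ∨ (z.im = 0 ∧ c ≤ z.re)}) (f : H)
    (hf : ∀ v, A v = 0 → ⟪v, f⟫_ℂ = 0) : c * ‖f‖ ^ 2 ≤ (⟪A f, f⟫_ℂ).re := by
  have hs : ∀ t ∈ spectrum ℝ A, t = 0 ∨ c ≤ t := by
    intro t ht
    have := h (spectrum.algebraMap_mem ℂ ht)
    simpa using this
  let g : ℝ → ℝ := fun t => max 0 (1 - t / c)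
  have hg : Continuous g := by fun_prop
  set p : H →L[ℂ] H := cfc g A with hp
  have hAp : A * p = 0 := by
    have : cfc (fun t : ℝ => t * g t) A = A * p := by
      rw [cfc_mul _ _ A (by fun_prop) hg.continuousOn, cfc_id' ℝ A]
    rw [← this, ← cfc_const_zero ℝ A]
    refine cfc_congr fun t ht => ?_
    rcases hs t ht with rfl | h1
    · simp
    · have : 1 - t / c ≤ 0 := by
        rw [sub_nonpos, le_div_iff₀ hc]
        linarith
      simp [g, max_eq_left this]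
  have hpos : 0 ≤ A - c • (1 : H →L[ℂ] H) + c • p := by
    have : cfc (fun t : ℝ => t - c • (1 : ℝ) + c • g t) A = A - c • (1 : H →L[ℂ] H) + c • p := by
      rw [cfc_add _ _ _ (by fun_prop) (by fun_prop), cfc_sub _ _ _ (by fun_prop) (by fun_prop),
        cfc_id' ℝ A, cfc_smul c g A hg.continuousOn, cfc_smul c (fun _ => (1 : ℝ)) A (by fun_prop),
        cfc_const_one ℝ A]
    rw [← this]
    refine cfc_nonneg fun t ht => ?_
    rcases hs t ht with rfl | h1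
    · simp [g]
    · have : 0 ≤ c * g t := mul_nonneg hc.le (le_max_left _ _)
      simp only [smul_eq_mul]
      linarith
  rw [ContinuousLinearMap.nonneg_iff_isPositive] at hpos
  have h2 := hpos.re_inner_nonneg_left f
  have h3 : ⟪p f, f⟫_ℂ = 0 := hf _ (by
    have := congrArg (fun T : H →L[ℂ] H => T f) hAp
    simpa using this)
  have e4 : (⟪f, f⟫_ℂ).re = ‖f‖ ^ 2 := by
    rw [inner_self_eq_norm_sq_to_K]
    norm_cast
  have h4 : ⟪(A - c • (1 : H →L[ℂ] H) + c • p) f, f⟫_ℂ = ⟪A f, f⟫_ℂ - (c : ℂ) * ⟪f, f⟫_ℂ := by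
    have a1 : (A - c • (1 : H →L[ℂ] H) + c • p) f = A f - (c : ℂ) • f + (c : ℂ) • p f := by
      simp
    rw [a1, inner_add_left, inner_sub_left, inner_smul_left, inner_smul_left, h3]
    simp
  rw [h4] at h2
  simp only [RCLike.re_to_complex, Complex.sub_re, Complex.re_ofReal_mul, e4] at h2
  linarith

theorem re_one_sub (W : H →L[ℂ] H) (v : H) (hW : ‖W v‖ = ‖v‖) :
    (⟪(1 - W) v, v⟫_ℂ).re = ‖W v - v‖ ^ 2 / 2 := by
  have e4 : (⟪v, v⟫_ℂ).re = ‖v‖ ^ 2 := by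
    rw [inner_self_eq_norm_sq_to_K]
    norm_cast
  rw [@norm_sub_sq ℂ, hW]
  simp only [ContinuousLinearMap.sub_apply, ContinuousLinearMap.one_apply, inner_sub_left,
    Complex.sub_re, e4, RCLike.re_to_complex]
  ring

variable {Γ : Type} [Group Γ]

/-- invariant vectors -/
def Inv (ρ : Γ →* (H →L[ℂ] H)) : Submodule ℂ H where
  carrier := {v | ∀ g, ρ g v = v}
  add_mem' := fun {a b} ha hb g => by rw [map_add, ha g, hb g]
  zero_mem' := fun g => map_zero _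
  smul_mem' := fun c a ha g => by rw [map_smul, ha g]

theorem Inv_closed (ρ : Γ →* (H →L[ℂ] H)) : IsClosed ((Inv ρ : Submodule ℂ H) : Set H) := by
  have : ((Inv ρ : Submodule ℂ H) : Set H) = ⋂ g, {v | ρ g v = v} := by
    ext v
    simp [Inv]
  rw [this]
  exact isClosed_iInter fun g => isClosed_eq (ρ g).continuous continuous_id

theorem inner_rep (ρ : Γ →* (H →L[ℂ] H)) (hρ : ∀ g, star (ρ g) = ρ g⁻¹) (g : Γ) (v w : H) :
    ⟪ρ g v, w⟫_ℂ = ⟪v, ρ g⁻¹ w⟫_ℂ := by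
  rw [← hρ, ContinuousLinearMap.star_eq_adjoint, ContinuousLinearMap.adjoint_inner_right]

theorem rep_mul (ρ : Γ →* (H →L[ℂ] H)) (g h : Γ) (v : H) : ρ g (ρ h v) = ρ (g * h) v := by
  rw [map_mul]; rfl

theorem kazhdan_ineq (S : Finset Γ) (ε : ℝ)
    (hT : ∀ (E : Type) [NormedAddCommGroup E] [InnerProductSpace ℂ E] [CompleteSpace E]
        (π : Γ →* (E →L[ℂ] E)),
        (∀ g : Γ, π g ∈ unitary (E →L[ℂ] E)) →
        (∃ v : E, ‖v‖ = 1 ∧ ∀ s ∈ S, ‖(π s) v - v‖ < ε) →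
        ∃ w : E, w ≠ 0 ∧ ∀ g : Γ, (π g) w = w)
    (ρ : Γ →* (H →L[ℂ] H)) (hρ : ∀ g, star (ρ g) = ρ g⁻¹) (v : H) (hv : v ∈ (Inv ρ)ᗮ)
    (hv0 : v ≠ 0) : ∃ s ∈ S, ε * ‖v‖ ≤ ‖ρ s v - v‖ := by
  by_contra hcon
  push Not at hcon
  have hinv : ∀ g, ∀ w ∈ (Inv ρ)ᗮ, ρ g w ∈ (Inv ρ)ᗮ := by
    intro g w hw
    rw [Submodule.mem_orthogonal'] at hw ⊢
    intro u hu
    rw [inner_rep ρ hρ, hu g⁻¹]
    exact hw u hu
  let ρ' : Γ →* ((Inv ρ)ᗮ →L[ℂ] (Inv ρ)ᗮ) :=
    { toFun := fun g => (ρ g).restrict (hinv g)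
      map_one' := by
        ext w
        simp
      map_mul' := fun g h => by
        ext w
        simp }
  have hs : ∀ g, star (ρ' g) = ρ' g⁻¹ := by
    intro g
    rw [ContinuousLinearMap.star_eq_adjoint]
    symm
    rw [ContinuousLinearMap.eq_adjoint_iff]
    intro x y
    have := inner_rep ρ hρ g⁻¹ x.1 y.1
    rw [inv_inv] at this
    exact this
  have hn : 0 < ‖v‖ := norm_pos_iff.2 hv0
  obtain ⟨w, hw0, hw⟩ := hT (Inv ρ)ᗮ ρ'
    (fun g => by
      rw [Unitary.mem_iff, hs, ← map_mul, ← map_mul]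
      simp)
    ⟨((‖v‖⁻¹ : ℝ) : ℂ) • ⟨v, hv⟩, by
      rw [norm_smul]
      simp [hn.ne'], fun s hs => by
      rw [map_smul, ← smul_sub, norm_smul]
      have h1 : ‖ρ' s ⟨v, hv⟩ - ⟨v, hv⟩‖ = ‖ρ s v - v‖ := rfl
      rw [h1, Complex.norm_real, norm_inv, norm_norm, inv_mul_lt_iff₀ hn, mul_comm]
      exact hcon s hs⟩
  apply hw0
  have h1 : w.1 ∈ Inv ρ := fun g => congrArg Subtype.val (hw g)
  have h2 : ⟪w.1, w.1⟫_ℂ = 0 := Submodule.inner_right_of_mem_orthogonal h1 w.2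
  exact Subtype.ext (inner_self_eq_zero.1 h2)

theorem orth_zero [Infinite Γ] (ρ : Γ →* (H →L[ℂ] H)) (hρ : ∀ g, star (ρ g) = ρ g⁻¹) (ξ η : H)
    (hξ : ξ ∈ Inv ρ) (h1 : ⟪η, ξ⟫_ℂ = ⟪η, η⟫_ℂ) (h2 : ∀ g, g ≠ 1 → ⟪η, ρ g η⟫_ℂ = 0) :
    η = 0 := by
  by_contra hne
  have hn : 0 < ‖η‖ := norm_pos_iff.2 hne
  have hnc : ((‖η‖ : ℝ) : ℂ) ≠ 0 := by exact_mod_cast hn.ne'
  have e4 : ⟪η, η⟫_ℂ = ((‖η‖ : ℝ) : ℂ) ^ 2 := inner_self_eq_norm_sq_to_K η
  let e : Γ → H := fun g => ((‖η‖⁻¹ : ℝ) : ℂ) • ρ g η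
  have hon : Orthonormal ℂ e := by
    classical
    rw [orthonormal_iff_ite]
    intro g h
    simp only [e, inner_smul_left, inner_smul_right, Complex.conj_ofReal]
    rw [inner_rep ρ hρ, rep_mul]
    split_ifs with hgh
    · subst hgh
      rw [inv_mul_cancel, map_one, ContinuousLinearMap.one_apply, e4]
      push_cast
      field_simp
    · rw [h2 _ (fun h0 => hgh (inv_mul_eq_one.1 h0))]
      simp
  have hsum := hon.inner_products_summable ξ
  have hval : ∀ g, ‖⟪e g, ξ⟫_ℂ‖ ^ 2 = ‖η‖ ^ 2 := by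
    intro g
    simp only [e, inner_smul_left, Complex.conj_ofReal]
    rw [inner_rep ρ hρ, hξ g⁻¹, h1, e4]
    congr 1
    push_cast
    rw [show ((‖η‖ : ℝ) : ℂ)⁻¹ * ((‖η‖ : ℝ) : ℂ) ^ 2 = ((‖η‖ : ℝ) : ℂ) by field_simp]
    simp
  simp only [hval] at hsum
  have := (summable_const_iff (‖η‖ ^ 2)).1 hsum
  nlinarith

end Pool.Agent.H902Z.BT
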