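import Pool.Agent.H902Z.BT.Box

set_option autoImplicit false

open scoped InnerProductSpace

namespace Pool.Agent.H902Z.BT

open Pool.Agent.Helper741.GroupVN

variable {Γ : Type} [Group Γ] (D : Data Γ)

namespace Data

theorem W_id (σ : Equiv.Perm ℕ) : W (fun T : Op => T) σ = U σ := by
  simp [W]

theorem inner_delta (v : L2 ℕ) (x : ℕ) : ⟪v, delta x⟫_ℂ = (starRingEnd ℂ) (v x) := by
  rw [delta, lp.inner_single_right]
  simp

theorem no_gap : ¬ ∃ c : ℝ, 0 < c ∧
    spectrum ℂ D.L ⊆ {z : ℂ | z = 0 ∨ (z.im = 0 ∧ c ≤ z.re)} := by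
  rintro ⟨c, hc, hsp⟩
  have hsa : IsSelfAdjoint D.L :=
    D.pi_L_sa (fun T : Op => T) (fun _ _ _ _ => ⟨rfl, rfl⟩) (fun _ _ _ => rfl) (fun _ _ => rfl)
  have hform : ∀ v : L2 ℕ, (⟪D.L v, v⟫_ℂ).re =
      ∑ s ∈ D.T, ‖U (D.α s) v - v‖ ^ 2 / 2 + ‖U D.μ v - v‖ ^ 2 / 2 := by
    intro v
    have := D.form_L (fun T : Op => T) (fun _ _ _ _ => ⟨rfl, rfl⟩) (fun _ _ _ => rfl)
      (fun _ _ => rfl) v
    simpa only [W_id] using this
  obtain ⟨M, hM⟩ := exists_nat_gt (8 / c)
  obtain ⟨O, O', a, hO, hcard, hdis, h1, h2, h3, h4⟩ := D.big M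
  have ha : a ∈ O := (h1 a).2 ⟨1, by simp⟩
  have ha' : D.μ a ∈ O' := (h2 _).2 ⟨1, by simp⟩
  have hd : ∀ x, x ∈ O → x ∉ O' := fun x hx => Finset.disjoint_left.1 hdis hx
  let f : L2 ℕ := ∑ x ∈ O, delta x - ∑ x ∈ O', delta x
  have hf : ∀ y, f y = (if y ∈ O then 1 else 0) - (if y ∈ O' then 1 else 0) := by
    intro y
    simp only [f, lp.coeFn_sub, Pi.sub_apply, lp.coeFn_sum, Finset.sum_apply, delta_apply,
      Finset.sum_ite_eq]
  have hin : ∀ v : L2 ℕ, ⟪v, f⟫_ℂ =
      ∑ x ∈ O, (starRingEnd ℂ) (v x) - ∑ x ∈ O', (starRingEnd ℂ) (v x) := by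
    intro v
    simp only [f, inner_sub_right, inner_sum, inner_delta]
  have hinvO : ∀ g y, D.α g y ∈ O ↔ y ∈ O := by
    intro g y
    rw [h1, h1]
    constructor
    · rintro ⟨k, hk⟩
      exact ⟨g⁻¹ * k, by simp [hk]⟩
    · rintro ⟨k, rfl⟩
      exact ⟨g * k, by simp⟩
  have hinvO' : ∀ g y, D.α g y ∈ O' ↔ y ∈ O' := by
    intro g y
    rw [h2, h2]
    constructor
    · rintro ⟨k, hk⟩
      exact ⟨g⁻¹ * k, by simp [hk]⟩
    · rintro ⟨k, rfl⟩
      exact ⟨g * k, by simp⟩
  have hfα : ∀ g, U (D.α g) f = f := by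
    intro g
    ext y
    rw [U_apply, ← map_inv, hf, hf]
    simp only [hinvO, hinvO']
  have hfμ : U D.μ f - f = (2 : ℂ) • delta (D.μ a) - (2 : ℂ) • delta a := by
    ext y
    have hne : D.μ a ≠ a := fun h => hd a ha (h ▸ ha')
    simp only [lp.coeFn_sub, Pi.sub_apply, U_apply, μ_inv, hf, lp.coeFn_smul, Pi.smul_apply,
      delta_apply, smul_eq_mul]
    by_cases e1 : y = a
    · subst e1
      have : D.μ y ∉ O := fun h => hd _ h ha'
      simp [ha, ha', this, hd y ha, hne.symm]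
      norm_num
    · by_cases e2 : y = D.μ a
      · subst e2
        have : D.μ a ∉ O := fun h => hd _ h ha'
        simp [D.μμ, ha, ha', this, hd a ha, hne]
        norm_num
      · by_cases e3 : D.μ y = y
        · simp [e1, e2, e3]
        · have b1 : y ∉ O := fun h => e3 (h3 y h e1)
          have b2 : y ∉ O' := fun h => e3 (h4 y h e2)
          have b3 : D.μ y ∉ O := by
            intro h
            have := h3 _ h (fun h' => e2 (by rw [← h', D.μμ]))
            rw [D.μμ] at this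
            exact e3 this.symm
          have b4 : D.μ y ∉ O' := by
            intro h
            have := h4 _ h (fun h' => e1 (D.μ.injective h'))
            rw [D.μμ] at this
            exact e3 this.symm
          simp [e1, e2, b1, b2, b3, b4]
  have hnd : ∀ x : ℕ, ‖(delta x : L2 ℕ)‖ = 1 := by
    intro x
    rw [delta, lp.norm_single (by norm_num)]
    simp
  have hnorm : ‖U D.μ f - f‖ ≤ 4 := by
    rw [hfμ]
    refine (norm_sub_le _ _).trans ?_
    rw [norm_smul, norm_smul, hnd, hnd]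
    norm_num
  have hup : (⟪D.L f, f⟫_ℂ).re ≤ 8 := by
    rw [hform]
    simp only [hfα, sub_self, norm_zero]
    have : ‖U D.μ f - f‖ ^ 2 ≤ 4 ^ 2 := pow_le_pow_left₀ (norm_nonneg _) hnorm 2
    simp
    linarith
  have hlow : (O.card : ℝ) ≤ ‖f‖ ^ 2 := by
    have e4 : (⟪f, f⟫_ℂ).re = ‖f‖ ^ 2 := by
      rw [inner_self_eq_norm_sq_to_K]
      norm_cast
    rw [← e4, hin, Finset.sum_congr rfl (g := fun _ => (1 : ℂ)),
      Finset.sum_congr rfl (s₁ := O') (g := fun _ => (-1 : ℂ))]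
    · simp
    · intro x hx
      have : x ∉ O := fun h => hd x h hx
      simp [hf, hx, this]
    · intro x hx
      simp [hf, hx, hd x hx]
  have hker : ∀ v, D.L v = 0 → ⟪v, f⟫_ℂ = 0 := by
    intro v hv
    have h0 := hform v
    rw [hv, inner_zero_left, Complex.zero_re] at h0
    have n1 : 0 ≤ ∑ s ∈ D.T, ‖U (D.α s) v - v‖ ^ 2 / 2 :=
      Finset.sum_nonneg fun _ _ => by positivity
    have n2 : 0 ≤ ‖U D.μ v - v‖ ^ 2 / 2 := by positivity
    have z1 : ∑ s ∈ D.T, ‖U (D.α s) v - v‖ ^ 2 / 2 = 0 := by linarith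
    have z2 : ‖U D.μ v - v‖ ^ 2 / 2 = 0 := by linarith
    rw [Finset.sum_eq_zero_iff_of_nonneg (fun _ _ => by positivity)] at z1
    have z3 : U D.μ v = v := by simpa [sub_eq_zero] using z2
    have z4 : ∀ g, U (D.α g) v = v := by
      intro g
      have hg : g ∈ Subgroup.closure (D.T : Set Γ) := by rw [D.gen]; trivial
      induction hg using Subgroup.closure_induction_left with
      | one => rw [map_one, U_one]; rfl
      | mul_left s hs g _ ih =>
        have : U (D.α s) v = v := by simpa [sub_eq_zero] using z1 s hs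
        rw [map_mul, U_mul, ContinuousLinearMap.mul_apply, ih, this]
      | inv_mul_cancel s hs g _ ih =>
        have : U (D.α s⁻¹) v = v := by simpa [sub_eq_zero] using z1 s⁻¹ (D.T_symm s hs)
        rw [map_mul, U_mul, ContinuousLinearMap.mul_apply, ih, this]
    have z5 : ∀ g x, v (D.α g x) = v x := by
      intro g x
      have := congrArg (fun w : L2 ℕ => w (D.α g x)) (z4 g)
      simp only [U_apply] at this
      rw [← this]
      simp
    have z6 : v (D.μ a) = v a := by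
      have := congrArg (fun w : L2 ℕ => w a) z3
      simpa only [U_apply, μ_inv] using this
    rw [hin, Finset.sum_congr rfl (g := fun _ => (starRingEnd ℂ) (v a)),
      Finset.sum_congr rfl (s₁ := O') (g := fun _ => (starRingEnd ℂ) (v a))]
    · simp [hcard]
    · intro x hx
      obtain ⟨g, rfl⟩ := (h2 x).1 hx
      rw [z5, z6]
    · intro x hx
      obtain ⟨g, rfl⟩ := (h1 x).1 hx
      rw [z5]
  have hmain := coercive_of_gap D.L hsa c hc hsp f hker
  have hM' : (M : ℝ) ≤ O.card := by exact_mod_cast hO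
  rw [div_lt_iff₀ hc] at hM
  nlinarith

end Data

end Pool.Agent.H902Z.BT
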